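import Pool.Agent.H41.AL.Defs2

set_option autoImplicit false
set_option linter.unusedSectionVars false

/-!
# AG-TAIL: tails of the row sums, column sums and codegrees after random choices
-/

namespace Pool.Agent.H727.AG

open Equiv Finset Pool.Agent.H41.AL

variable {n L : ℕ} {ι : Type} [Fintype ι] [DecidableEq ι]

/-- the weights after the choices at the members of `S` -/
noncomputable def WW (M : ι → Fin L → Perm (Fin n)) (g : ι → Perm (Fin n)) (W : Mx n)
    (S : Finset ι) (k : ι → Fin L) : Mx n :=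
  fun j c => W j c * ∏ u ∈ S, fac (M u) (k u) (g u) j c

theorem upd_eq (M : Fin L → Perm (Fin n)) (k : Fin L) (g : Perm (Fin n)) (W : Mx n) :
    upd M k g W = fun j c => W j c * fac M k g j c := by
  funext j c
  unfold upd fac
  split_ifs <;> simp

theorem one_le_q (hL : 3 ≤ L) : 1 ≤ (L : ℝ) / (L - 1) := by
  have h : (3 : ℝ) ≤ L := by exact_mod_cast hL
  rw [le_div_iff₀ (by linarith)]
  linarith

theorem fac_nonneg (hL : 3 ≤ L) (M : Fin L → Perm (Fin n)) (k : Fin L) (g : Perm (Fin n))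
    (j c : Fin n) : 0 ≤ fac M k g j c := by
  have h := one_le_q hL
  unfold fac
  split_ifs <;> linarith

theorem fac_le (hL : 3 ≤ L) (M : Fin L → Perm (Fin n)) (k : Fin L) (g : Perm (Fin n))
    (j c : Fin n) : fac M k g j c ≤ (L : ℝ) / (L - 1) := by
  have h := one_le_q hL
  unfold fac
  split_ifs <;> linarith

theorem sum_update (u : ι) (G : (ι → Fin L) → ℝ) :
    (L : ℝ) * ∑ k, G k = ∑ k, ∑ i : Fin L, G (Function.update k u i) := by
  have h1 : (L : ℝ) * ∑ k, G k = ∑ x : (ι → Fin L) × Fin L, G x.1 := by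
    rw [Fintype.sum_prod_type, mul_sum]
    apply sum_congr rfl
    intro k _
    simp
  have h2 : ∑ k, ∑ i : Fin L, G (Function.update k u i) =
      ∑ x : (ι → Fin L) × Fin L, G (Function.update x.1 u x.2) := by
    rw [Fintype.sum_prod_type]
  rw [h1, h2]
  apply sum_nbij' (fun x => (Function.update x.1 u x.2, x.1 u))
    (fun x => (Function.update x.1 u x.2, x.1 u))
  · intro x _; exact mem_univ _
  · intro x _; exact mem_univ _
  · intro x _; simp
  · intro x _; simp
  · intro x _; simp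

theorem WW_bd (hL : 3 ≤ L) {d : ℕ} {A : ℝ} (M : ι → Fin L → Perm (Fin n))
    (g : ι → Perm (Fin n)) {W : Mx n}
    (hW : ∀ j c, 0 ≤ W j c ∧ W j c * ((L : ℝ) / (L - 1)) ^ d ≤ A) (S : Finset ι) (hS : S.card ≤ d)
    (k : ι → Fin L) (j c : Fin n) : 0 ≤ WW M g W S k j c ∧ WW M g W S k j c ≤ A := by
  unfold WW
  have h0 : 0 ≤ ∏ u ∈ S, fac (M u) (k u) (g u) j c := prod_nonneg fun u _ => fac_nonneg hL _ _ _ _ _
  refine ⟨mul_nonneg (hW j c).1 h0, ?_⟩
  refine le_trans (mul_le_mul_of_nonneg_left ?_ (hW j c).1) (hW j c).2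
  calc ∏ u ∈ S, fac (M u) (k u) (g u) j c ≤ ∏ _u ∈ S, ((L : ℝ) / (L - 1)) :=
        prod_le_prod (fun u _ => fac_nonneg hL _ _ _ _ _) fun u _ => fac_le hL _ _ _ _ _
    _ = ((L : ℝ) / (L - 1)) ^ S.card := prod_const _
    _ ≤ _ := pow_le_pow_right₀ (one_le_q hL) hS

/-- exponential moments -/
theorem expo (hL : 3 ≤ L) {d : ℕ} {A : ℝ} (M : ι → Fin L → Perm (Fin n))
    (g : ι → Perm (Fin n)) {W : Mx n}
    (hW : ∀ j c, 0 ≤ W j c ∧ W j c * ((L : ℝ) / (L - 1)) ^ d ≤ A) (N : Finset ι) (hN : N.card ≤ d)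
    (T : Mx n → ℝ) (l E : ℝ) (hE : 0 ≤ E)
    (hT : ∀ u ∈ N, ∀ W' : Mx n, (∀ j c, 0 ≤ W' j c ∧ W' j c ≤ A) →
      ∑ k, Real.exp (l * (T (upd (M u) k (g u) W') - n)) ≤ L * (E * Real.exp (l * (T W' - n)))) :
    ∀ S : Finset ι, S ⊆ N → ∑ k : ι → Fin L, Real.exp (l * (T (WW M g W S k) - n)) ≤
      Fintype.card (ι → Fin L) * (E ^ S.card * Real.exp (l * (T W - n))) := by
  have hL0 : (0 : ℝ) < L := by
    have : 0 < L := by omega
    exact_mod_cast this
  intro S
  induction S using Finset.induction_on with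
  | empty =>
    intro _
    have h1 : ∀ k : ι → Fin L, WW M g W ∅ k = W := by
      intro k
      unfold WW
      simp
    simp only [h1, sum_const, card_univ, nsmul_eq_mul, card_empty, pow_zero, one_mul]
    exact le_rfl
  | insert u S hu ih =>
    intro hS
    have hSN : S ⊆ N := fun v hv => hS (mem_insert_of_mem hv)
    have huN : u ∈ N := hS (mem_insert_self u S)
    have h1 := ih hSN
    have hcard : S.card ≤ d := (card_le_card hSN).trans hN
    have h2 : ∀ (k : ι → Fin L) (i : Fin L), WW M g W (insert u S) (Function.update k u i) =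
        upd (M u) i (g u) (WW M g W S k) := by
      intro k i
      rw [upd_eq]
      funext j c
      unfold WW
      rw [prod_insert hu, Function.update_self]
      have h3 : ∏ v ∈ S, fac (M v) (Function.update k u i v) (g v) j c =
          ∏ v ∈ S, fac (M v) (k v) (g v) j c := by
        apply prod_congr rfl
        intro v hv
        rw [Function.update_of_ne (fun h : v = u => hu (h ▸ hv))]
      rw [h3]
      ring
    have h3 : (L : ℝ) * ∑ k : ι → Fin L, Real.exp (l * (T (WW M g W (insert u S) k) - n)) ≤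
        L * (E * ∑ k : ι → Fin L, Real.exp (l * (T (WW M g W S k) - n))) := by
      rw [sum_update u, mul_sum, mul_sum]
      apply sum_le_sum
      intro k _
      simp only [h2]
      exact hT u huN _ (WW_bd hL M g hW S hcard k)
    have h4 := le_of_mul_le_mul_left h3 hL0
    refine h4.trans ((mul_le_mul_of_nonneg_left h1 hE).trans (le_of_eq ?_))
    rw [card_insert_of_notMem hu, pow_succ]
    ring

/-- Markov's inequality -/
theorem mark (hL : 3 ≤ L) {d : ℕ} {A : ℝ} (M : ι → Fin L → Perm (Fin n))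
    (g : ι → Perm (Fin n)) {W : Mx n}
    (hW : ∀ j c, 0 ≤ W j c ∧ W j c * ((L : ℝ) / (L - 1)) ^ d ≤ A) (N : Finset ι) (hN : N.card ≤ d)
    (hA : 1 ≤ A) {τ : ℝ} (hτ : 0 ≤ τ) (T : Mx n → ℝ) (s : ℝ) (hs : s = 1 ∨ s = -1)
    (hT : ∀ u ∈ N, ∀ W' : Mx n, (∀ j c, 0 ≤ W' j c ∧ W' j c ≤ A) →
      ∑ k, Real.exp ((s * (τ / (50 * A ^ 4 * (d + 1)))) * (T (upd (M u) k (g u) W') - n)) ≤
        L * (Real.exp (25 * (s * (τ / (50 * A ^ 4 * (d + 1)))) ^ 2 * A ^ 4) *
          Real.exp ((s * (τ / (50 * A ^ 4 * (d + 1)))) * (T W' - n))))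
    (F : Finset (ι → Fin L)) (hF : ∀ k ∈ F, τ < s * (T (WW M g W N k) - T W)) :
    (F.card : ℝ) ≤ Real.exp (-(τ ^ 2 / (100 * A ^ 4 * (d + 1)))) * Fintype.card (ι → Fin L) := by
  set lam : ℝ := τ / (50 * A ^ 4 * (d + 1)) with hlam
  have hd0 : (0 : ℝ) < (d : ℝ) + 1 := by positivity
  have hA0 : 0 < A := by linarith
  have hlam0 : 0 ≤ lam := by positivity
  have h1 := expo hL M g hW N hN T (s * lam) (Real.exp (25 * (s * lam) ^ 2 * A ^ 4)) (Real.exp_pos _).le hT N
    (Subset.refl N)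
  have hs2 : (s * lam) ^ 2 = lam ^ 2 := by
    rcases hs with h | h <;> rw [h] <;> ring
  rw [hs2, ← Real.exp_nat_mul] at h1
  have h2 : (F.card : ℝ) * (Real.exp (lam * τ) * Real.exp (s * lam * (T W - n))) ≤
      ∑ k : ι → Fin L, Real.exp (s * lam * (T (WW M g W N k) - n)) := by
    rw [← nsmul_eq_mul, ← sum_const]
    calc ∑ _k ∈ F, Real.exp (lam * τ) * Real.exp (s * lam * (T W - n)) ≤
          ∑ k ∈ F, Real.exp (s * lam * (T (WW M g W N k) - n)) := by
          apply sum_le_sum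
          intro k hk
          rw [← Real.exp_add]
          apply Real.exp_le_exp.2
          have h3 := mul_le_mul_of_nonneg_left (hF k hk).le hlam0
          linarith
      _ ≤ _ := sum_le_sum_of_subset_of_nonneg (subset_univ F) fun _ _ _ => (Real.exp_pos _).le
  have h3 := h2.trans h1
  have h4 : (F.card : ℝ) * Real.exp (lam * τ) ≤
      Fintype.card (ι → Fin L) * Real.exp ((N.card : ℝ) * (25 * lam ^ 2 * A ^ 4)) := by
    have h5 : (F.card : ℝ) * Real.exp (lam * τ) * Real.exp (s * lam * (T W - n)) ≤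
        Fintype.card (ι → Fin L) * Real.exp ((N.card : ℝ) * (25 * lam ^ 2 * A ^ 4)) *
          Real.exp (s * lam * (T W - n)) := by
      linarith
    exact le_of_mul_le_mul_right h5 (Real.exp_pos _)
  have h5 : (N.card : ℝ) * (25 * lam ^ 2 * A ^ 4) ≤ lam * τ - τ ^ 2 / (100 * A ^ 4 * (d + 1)) := by
    have h6 : (N.card : ℝ) ≤ (d : ℝ) + 1 := by
      have : (N.card : ℝ) ≤ d := by exact_mod_cast hN
      linarith
    have h7 : (N.card : ℝ) * (25 * lam ^ 2 * A ^ 4) ≤ ((d : ℝ) + 1) * (25 * lam ^ 2 * A ^ 4) :=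
      mul_le_mul_of_nonneg_right h6 (by positivity)
    refine h7.trans (le_of_eq ?_)
    rw [hlam]
    field_simp
    ring
  have h6 : (F.card : ℝ) * Real.exp (lam * τ) ≤ Fintype.card (ι → Fin L) *
      (Real.exp (lam * τ) * Real.exp (-(τ ^ 2 / (100 * A ^ 4 * (d + 1))))) := by
    refine h4.trans (mul_le_mul_of_nonneg_left ?_ (Nat.cast_nonneg _))
    rw [← Real.exp_add]
    apply Real.exp_le_exp.2
    linarith
  have h7 : (F.card : ℝ) * Real.exp (lam * τ) ≤
      Real.exp (-(τ ^ 2 / (100 * A ^ 4 * (d + 1)))) * Fintype.card (ι → Fin L) * Real.exp (lam * τ) := by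
    linarith
  exact le_of_mul_le_mul_right h7 (Real.exp_pos _)

theorem un_le {X κ : Type} [DecidableEq X] [Fintype κ] (F : κ → Finset X) (b : ℝ)
    (h : ∀ i, ((F i).card : ℝ) ≤ b) : ((univ.biUnion F).card : ℝ) ≤ Fintype.card κ * b := by
  have h1 : ((univ.biUnion F).card : ℝ) ≤ ∑ i, ((F i).card : ℝ) := by exact_mod_cast card_biUnion_le
  refine h1.trans ((sum_le_sum fun i _ => h i).trans (le_of_eq ?_))
  rw [sum_const, card_univ, nsmul_eq_mul]

theorem tail (hr : S_STEPR) (hc : S_STEPC) (hq : S_STEPQ) : S_TAIL := by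
  intro n L d ι _ _ N M g W A τ hL hM hN hW hA hτ0 hτ
  classical
  have hd0 : (0 : ℝ) < (d : ℝ) + 1 := by positivity
  have hA0 : 0 < A := by linarith
  set lam : ℝ := τ / (50 * A ^ 4 * (d + 1)) with hlam
  have hlam0 : 0 ≤ lam := by positivity
  have hlam1 : lam * (5 * A ^ 2) ≤ 1 := by
    have h1 : lam * (5 * A ^ 2) = τ / (10 * A ^ 2 * (d + 1)) := by
      rw [hlam]
      field_simp
      ring
    rw [h1, div_le_one (by positivity)]
    exact hτ
  have habs : ∀ s : ℝ, s = 1 ∨ s = -1 → |s * lam| * (5 * A ^ 2) ≤ 1 := by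
    intro s hs
    have h1 : |s * lam| = lam := by
      rcases hs with h | h
      · rw [h, one_mul, abs_of_nonneg hlam0]
      · rw [h, neg_one_mul, abs_neg, abs_of_nonneg hlam0]
    rw [h1]
    exact hlam1
  set b : ℝ := Real.exp (-(τ ^ 2 / (100 * A ^ 4 * (d + 1)))) * Fintype.card (ι → Fin L) with hb
  have hb0 : 0 ≤ b := by positivity
  have hrow : ∀ (s : ℝ), s = 1 ∨ s = -1 → ∀ j : Fin n, (((univ : Finset (ι → Fin L)).filter
      (fun k => τ < s * (rowS (WW M g W N k) j - rowS W j))).card : ℝ) ≤ b := by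
    intro s hs j
    refine mark hL M g hW N hN hA hτ0 (fun W' => rowS W' j) s hs ?_ _ fun k hk => (mem_filter.1 hk).2
    intro u hu W' hW'
    exact hr n L (M u) (g u) W' A (s * lam) j hL (hM u hu) hW' hA (habs s hs)
  have hcol : ∀ (s : ℝ), s = 1 ∨ s = -1 → ∀ c : Fin n, (((univ : Finset (ι → Fin L)).filter
      (fun k => τ < s * (colS (WW M g W N k) c - colS W c))).card : ℝ) ≤ b := by
    intro s hs c
    refine mark hL M g hW N hN hA hτ0 (fun W' => colS W' c) s hs ?_ _ fun k hk => (mem_filter.1 hk).2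
    intro u hu W' hW'
    exact hc n L (M u) (g u) W' A (s * lam) c hL (hM u hu) hW' hA (habs s hs)
  have hcod : ∀ p : Fin n × Fin n, (((univ : Finset (ι → Fin L)).filter
      (fun k => p.1 ≠ p.2 ∧ τ < 1 * (cod (WW M g W N k) p.1 p.2 - cod W p.1 p.2))).card : ℝ) ≤ b := by
    intro p
    by_cases hp : p.1 = p.2
    · have h1 : (univ : Finset (ι → Fin L)).filter
          (fun k => p.1 ≠ p.2 ∧ τ < 1 * (cod (WW M g W N k) p.1 p.2 - cod W p.1 p.2)) = ∅ := by
        apply filter_eq_empty_iff.2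
        intro k _ h2
        exact h2.1 hp
      rw [h1, card_empty, Nat.cast_zero]
      exact hb0
    · refine mark hL M g hW N hN hA hτ0 (fun W' => cod W' p.1 p.2) 1 (Or.inl rfl) ?_ _
        fun k hk => (mem_filter.1 hk).2.2
      intro u hu W' hW'
      exact hq n L (M u) (g u) W' A (1 * lam) p.1 p.2 hL (hM u hu) hW' hA
        (by rw [one_mul]; exact hlam0) (by rw [one_mul]; exact hlam1) hp
  have hset : {k : ι → Fin L | ¬ Near3 τ W fun j c => W j c * ∏ u ∈ N, fac (M u) (k u) (g u) j c} =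
      (((univ : Finset (ι → Fin L)).filter (fun k => ¬ Near3 τ W (WW M g W N k)) :
        Finset (ι → Fin L)) : Set (ι → Fin L)) := by
    ext k
    rw [mem_coe, mem_filter]
    exact ⟨fun h => ⟨mem_univ k, h⟩, fun h => h.2⟩
  rw [hset, Set.ncard_coe_finset]
  have hsub : (univ : Finset (ι → Fin L)).filter (fun k => ¬ Near3 τ W (WW M g W N k)) ⊆
      ((((univ.biUnion fun j => (univ : Finset (ι → Fin L)).filter
        (fun k => τ < 1 * (rowS (WW M g W N k) j - rowS W j))) ∪
      (univ.biUnion fun j => (univ : Finset (ι → Fin L)).filter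
        (fun k => τ < (-1) * (rowS (WW M g W N k) j - rowS W j)))) ∪
      (univ.biUnion fun c => (univ : Finset (ι → Fin L)).filter
        (fun k => τ < 1 * (colS (WW M g W N k) c - colS W c)))) ∪
      (univ.biUnion fun c => (univ : Finset (ι → Fin L)).filter
        (fun k => τ < (-1) * (colS (WW M g W N k) c - colS W c)))) ∪
      (univ.biUnion fun p : Fin n × Fin n => (univ : Finset (ι → Fin L)).filter
        (fun k => p.1 ≠ p.2 ∧ τ < 1 * (cod (WW M g W N k) p.1 p.2 - cod W p.1 p.2))) := by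
    intro k hk
    have h1 := (mem_filter.1 hk).2
    simp only [mem_union, mem_biUnion, mem_filter, mem_univ, true_and]
    by_contra hcon
    push Not at hcon
    obtain ⟨⟨⟨⟨a1, a2⟩, a3⟩, a4⟩, a5⟩ := hcon
    apply h1
    refine ⟨fun j => ?_, fun c => ?_, fun j j' hjj => ?_⟩
    · have b1 := a1 j
      have b2 := a2 j
      exact abs_le.2 ⟨by linarith, by linarith⟩
    · have b1 := a3 c
      have b2 := a4 c
      exact abs_le.2 ⟨by linarith, by linarith⟩
    · have b1 := a5 (j, j') hjj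
      linarith
  have h1 : (((univ : Finset (ι → Fin L)).filter (fun k => ¬ Near3 τ W (WW M g W N k))).card : ℝ) ≤
      n * b + n * b + n * b + n * b + (n * n) * b := by
    have e1 := un_le (fun j : Fin n => (univ : Finset (ι → Fin L)).filter
        (fun k => τ < 1 * (rowS (WW M g W N k) j - rowS W j))) b (hrow 1 (Or.inl rfl))
    have e2 := un_le (fun j : Fin n => (univ : Finset (ι → Fin L)).filter
        (fun k => τ < (-1) * (rowS (WW M g W N k) j - rowS W j))) b (hrow (-1) (Or.inr rfl))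
    have e3 := un_le (fun j : Fin n => (univ : Finset (ι → Fin L)).filter
        (fun k => τ < 1 * (colS (WW M g W N k) j - colS W j))) b (hcol 1 (Or.inl rfl))
    have e4 := un_le (fun j : Fin n => (univ : Finset (ι → Fin L)).filter
        (fun k => τ < (-1) * (colS (WW M g W N k) j - colS W j))) b (hcol (-1) (Or.inr rfl))
    have e5 := un_le (fun p : Fin n × Fin n => (univ : Finset (ι → Fin L)).filter
        (fun k => p.1 ≠ p.2 ∧ τ < 1 * (cod (WW M g W N k) p.1 p.2 - cod W p.1 p.2))) b hcod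
    rw [Fintype.card_fin] at e1 e2 e3 e4
    rw [Fintype.card_prod, Fintype.card_fin, Nat.cast_mul] at e5
    have e6 := card_le_card hsub
    have e7 : ∀ X Y : Finset (ι → Fin L), ((X ∪ Y).card : ℝ) ≤ (X.card : ℝ) + Y.card := by
      intro X Y
      exact_mod_cast card_union_le X Y
    refine le_trans (Nat.cast_le.2 e6) ?_
    refine (e7 _ _).trans (add_le_add ((e7 _ _).trans (add_le_add ((e7 _ _).trans (add_le_add
      ((e7 _ _).trans (add_le_add e1 e2)) e3)) e4)) e5)
  refine h1.trans ?_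
  have hn : (n : ℝ) ≤ (n : ℝ) ^ 2 := by
    have : n ≤ n ^ 2 := Nat.le_self_pow (by norm_num) n
    exact_mod_cast this
  have h2 := mul_le_mul_of_nonneg_right hn hb0
  have h3 : 5 * (n : ℝ) ^ 2 * Real.exp (-(τ ^ 2 / (100 * A ^ 4 * (d + 1)))) *
      Fintype.card (ι → Fin L) = 5 * (n : ℝ) ^ 2 * b := by
    rw [hb]
    ring
  rw [h3]
  nlinarith

end Pool.Agent.H727.AG
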